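import Mathlib

open Polynomial Finset

namespace Pool.Agent.Results.MP_f76da2_an.RealParameter

/-- The polynomial `P_n(X, w)` for real `w`. -/
noncomputable def Q (w : ℝ) (n : ℕ) : ℝ[X] :=
  ∑ k ∈ range (n + 1), C ((n.choose k : ℝ) * w ^ (k * (n - k))) * X ^ k

lemma Q_eval (w x : ℝ) (n : ℕ) : (Q w n).eval x =
    ∑ k ∈ range (n + 1), (n.choose k : ℝ) * w ^ (k * (n - k)) * x ^ k := by
  simp [Q, eval_finsetSum]

/-- Pascal-type recurrence. -/
lemma Q_rec (w x : ℝ) (hw : w ≠ 0) (n : ℕ) :
    (Q w (n + 1)).eval x = (Q w n).eval (w * x) + w ^ n * x * (Q w n).eval (x / w) := by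
  have h2 : ∑ k ∈ range (n + 1), w ^ n * x * ((n.choose k : ℝ) * w ^ (k * (n - k)) * (x / w) ^ k)
      = ∑ k ∈ range (n + 1), (n.choose k : ℝ) * w ^ ((k + 1) * (n - k)) * x ^ (k + 1) := by
    apply sum_congr rfl
    intro k hk
    have hk' : k ≤ n := by
      have := mem_range.1 hk
      omega
    obtain ⟨m, rfl⟩ := Nat.exists_eq_add_of_le hk'
    rw [Nat.add_sub_cancel_left, div_pow]
    have e : w ^ (k + m) * w ^ (k * m) = w ^ ((k + 1) * m) * w ^ k := by
      rw [← pow_add, ← pow_add]
      congr 1
      ring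
    have hwk : w ^ k ≠ 0 := pow_ne_zero _ hw
    calc w ^ (k + m) * x * (((k + m).choose k : ℝ) * w ^ (k * m) * (x ^ k / w ^ k))
        = ((k + m).choose k : ℝ) * x ^ (k + 1) * (w ^ (k + m) * w ^ (k * m)) / w ^ k := by ring
      _ = ((k + m).choose k : ℝ) * w ^ ((k + 1) * m) * x ^ (k + 1) := by
          rw [e]
          field_simp
  have h1 : ∑ k ∈ range (n + 1), (n.choose k : ℝ) * w ^ (k * (n - k)) * (w * x) ^ k
      = ∑ k ∈ range (n + 1), (n.choose (k + 1) : ℝ) * w ^ ((k + 1) * (n - k)) * x ^ (k + 1) + 1 := by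
    rw [sum_range_succ', sum_range_succ (fun k => (n.choose (k + 1) : ℝ) * w ^ ((k + 1) * (n - k)) * x ^ (k + 1)) n]
    have e0 : ((n.choose (n + 1) : ℕ) : ℝ) = 0 := by simp
    rw [e0]
    have : ∀ k ∈ range n, (n.choose (k + 1) : ℝ) * w ^ ((k + 1) * (n - (k + 1))) * (w * x) ^ (k + 1)
        = (n.choose (k + 1) : ℝ) * w ^ ((k + 1) * (n - k)) * x ^ (k + 1) := by
      intro k hk
      have hk' : k + 1 ≤ n := by
        have := mem_range.1 hk
        omega
      obtain ⟨m, rfl⟩ := Nat.exists_eq_add_of_le hk'
      have a1 : k + 1 + m - (k + 1) = m := by omega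
      have a2 : k + 1 + m - k = m + 1 := by omega
      rw [a1, a2, mul_pow]
      ring
    rw [sum_congr rfl this]
    simp
  rw [Q_eval, Q_eval, Q_eval, sum_range_succ', mul_sum, h1, h2]
  have h3 : ∀ k ∈ range (n + 1), ((n + 1).choose (k + 1) : ℝ) * w ^ ((k + 1) * (n + 1 - (k + 1))) * x ^ (k + 1)
      = (n.choose (k + 1) : ℝ) * w ^ ((k + 1) * (n - k)) * x ^ (k + 1)
        + (n.choose k : ℝ) * w ^ ((k + 1) * (n - k)) * x ^ (k + 1) := by
    intro k _
    rw [Nat.choose_succ_succ, Nat.add_sub_add_right]
    push_cast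
    ring
  rw [sum_congr rfl h3, sum_add_distrib]
  simp
  ring

lemma Q_split (w : ℝ) (n : ℕ) : Q w n = X ^ n +
    ∑ k ∈ range n, C ((n.choose k : ℝ) * w ^ (k * (n - k))) * X ^ k := by
  rw [Q, sum_range_succ]
  simp
  ring

lemma low_degree (w : ℝ) (n : ℕ) :
    (∑ k ∈ range n, C ((n.choose k : ℝ) * w ^ (k * (n - k))) * X ^ k : ℝ[X]).degree < n := by
  rw [degree_lt_iff_coeff_zero]
  intro m hm
  rw [finsetSum_coeff]
  apply sum_eq_zero
  intro k hk
  have := mem_range.1 hk
  rw [coeff_C_mul_X_pow, if_neg (by omega)]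

lemma Q_monic (w : ℝ) (n : ℕ) : (Q w n).Monic := by
  rw [Q_split]
  exact monic_X_pow_add (low_degree w n)

lemma Q_degree (w : ℝ) (n : ℕ) : (Q w n).degree = n := by
  rw [Q_split, degree_add_eq_left_of_degree_lt, degree_X_pow]
  rw [degree_X_pow]
  exact low_degree w n

lemma sgn (a : ℕ → ℝ) (n : ℕ) : ∀ j, j ≤ n → (∀ i < j, a i < 0) → (∀ i, j ≤ i → i < n → 0 < a i) →
    0 < (-1) ^ j * ∏ i ∈ range n, a i := by
  induction n with
  | zero =>
    intro j hj _ _
    have : j = 0 := by omega
    subst this
    simp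
  | succ n ih =>
    intro j hj h1 h2
    rw [prod_range_succ]
    by_cases hjn : j ≤ n
    · have h := ih j hjn h1 (fun i hi hin => h2 i hi (by omega))
      have h' := h2 n hjn (by omega)
      have := mul_pos h h'
      linarith [mul_assoc ((-1 : ℝ) ^ j) (∏ i ∈ range n, a i) (a n)]
    · have hj' : j = n + 1 := by omega
      subst hj'
      have h := ih n le_rfl (fun i hi => h1 i (by omega)) (fun i hi hin => by omega)
      have h' : 0 < - a n := by linarith [h1 n (by omega)]
      have h3 := mul_pos h h'
      have e : (-1 : ℝ) ^ (n + 1) * ((∏ i ∈ range n, a i) * a n) =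
          (-1) ^ n * (∏ i ∈ range n, a i) * - a n := by ring
      rw [e]
      exact h3

/-- For large argument the sign of `P_m(-x, w)` is `(-1)^m`. -/
lemma large (w : ℝ) (m : ℕ) (hm : 0 < m) (B : ℝ) :
    ∃ x, B < x ∧ 0 < (-1) ^ m * (Q w m).eval (-x) := by
  set P : ℝ[X] := C ((-1 : ℝ) ^ m) * (Q w m).comp (-X) with hP
  have hnd : (Q w m).natDegree = m := natDegree_eq_of_degree_eq_some (Q_degree w m)
  have hX : (-X : ℝ[X]).natDegree = 1 := by simp
  have hcd : ((Q w m).comp (-X)).natDegree = m := by
    rw [natDegree_comp, hnd, hX, mul_one]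
  have hlc : ((Q w m).comp (-X)).leadingCoeff = (-1) ^ m := by
    rw [leadingCoeff_comp (by rw [hX]; exact one_ne_zero), (Q_monic w m).leadingCoeff, hnd]
    simp
  have hone : ((-1 : ℝ) ^ m) ≠ 0 := pow_ne_zero _ (by norm_num)
  have hPd : P.natDegree = m := by
    rw [hP, natDegree_C_mul hone, hcd]
  have hPl : P.leadingCoeff = 1 := by
    rw [hP, leadingCoeff_mul, leadingCoeff_C, hlc, ← mul_pow]
    norm_num
  have ht := P.tendsto_atTop_of_leadingCoeff_nonneg
    (natDegree_pos_iff_degree_pos.1 (by rw [hPd]; exact hm)) (by rw [hPl]; norm_num)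
  obtain ⟨x, hx1, hx2⟩ := ((ht.eventually_gt_atTop 0).and
    (Filter.eventually_gt_atTop B)).exists
  refine ⟨x, hx2, ?_⟩
  simpa [hP] using hx1

lemma chain (z : ℕ → ℝ) (c : ℝ) (hc : 1 < c) (n : ℕ) (hpos : ∀ j < n, 0 < z j)
    (h : ∀ j, j + 1 < n → c * z j < z (j + 1)) :
    ∀ d i, i + d < n → z i ≤ z (i + d) := by
  intro d
  induction d with
  | zero => intro i _; simp
  | succ d ih =>
    intro i hi
    have h1 := ih i (by omega)
    have h2 := h (i + d) (by omega)
    have h3 := hpos (i + d) (by omega)
    have h4 : z (i + d) ≤ c * z (i + d) := by nlinarith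
    calc z i ≤ z (i + d) := h1
      _ ≤ z (i + (d + 1)) := by
        have : i + (d + 1) = i + d + 1 := by omega
        rw [this]
        linarith

lemma chain' (z : ℕ → ℝ) (c : ℝ) (hc : 1 < c) (n : ℕ) (hpos : ∀ j < n, 0 < z j)
    (h : ∀ j, j + 1 < n → c * z j < z (j + 1)) (i j : ℕ) (hij : i < j) (hj : j < n) :
    c * z i < z j := by
  have h1 := h i (by omega)
  have h2 := chain z c hc n hpos h (j - (i + 1)) (i + 1) (by omega)
  have e : i + 1 + (j - (i + 1)) = j := by omega
  rw [e] at h2
  linarith

theorem real_case (w : ℝ) (hw : 1 < w) (n : ℕ) : ∃ r : ℕ → ℝ, (∀ j < n, 0 < r j) ∧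
    (∀ j, j + 1 < n → w ^ 2 * r j < r (j + 1)) ∧ Q w n = ∏ j ∈ range n, (X + C (r j)) := by
  have hw0 : 0 < w := by linarith
  have hw2 : 1 < w ^ 2 := by nlinarith
  induction n with
  | zero => exact ⟨fun _ => 1, by simp, by simp, by simp [Q]⟩
  | succ n ih =>
    obtain ⟨r, hpos, hsep, hprod⟩ := ih
    have hE : ∀ x : ℝ, (Q w (n + 1)).eval (-x) =
        ∏ j ∈ range n, (r j - w * x) - x * ∏ j ∈ range n, (w * r j - x) := by
      intro x
      rw [Q_rec w (-x) hw0.ne' n, hprod, eval_prod, eval_prod]
      have e1 : ∀ j ∈ range n, eval (w * -x) (X + C (r j)) = r j - w * x := by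
        intro j _
        simp
        ring
      have e2 : w ^ n * ∏ j ∈ range n, eval (-x / w) (X + C (r j)) =
          ∏ j ∈ range n, (w * r j - x) := by
        have : w ^ n = ∏ _j ∈ range n, w := by simp
        rw [this, ← prod_mul_distrib]
        apply prod_congr rfl
        intro j _
        simp
        field_simp
        ring
      rw [prod_congr rfl e1]
      calc ∏ j ∈ range n, (r j - w * x) + w ^ n * -x * ∏ j ∈ range n, eval (-x / w) (X + C (r j))
          = ∏ j ∈ range n, (r j - w * x) - x * (w ^ n * ∏ j ∈ range n, eval (-x / w) (X + C (r j))) := by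
            ring
        _ = _ := by rw [e2]
    have hch := chain' r (w ^ 2) hw2 n hpos hsep
    have hchle := chain r (w ^ 2) hw2 n hpos hsep
    -- sign at w * r j
    have sB : ∀ j < n, 0 < (-1) ^ (j + 1) * (Q w (n + 1)).eval (-(w * r j)) := by
      intro j hj
      rw [hE]
      have z0 : ∏ i ∈ range n, (w * r i - w * r j) = 0 := by
        apply prod_eq_zero (mem_range.2 hj)
        ring
      rw [z0, mul_zero, sub_zero]
      apply sgn _ n (j + 1) (by omega)
      · intro i hi
        have hle : r i ≤ r j := by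
          have := hchle (j - i) i (by omega)
          have e : i + (j - i) = j := by omega
          rwa [e] at this
        have hp := hpos j hj
        nlinarith
      · intro i hi hin
        have := hch j i (by omega) hin
        nlinarith
    -- sign at r j / w
    have sA : ∀ j < n, 0 < (-1) ^ (j + 1) * (Q w (n + 1)).eval (-(r j / w)) := by
      intro j hj
      rw [hE]
      have z0 : ∏ i ∈ range n, (r i - w * (r j / w)) = 0 := by
        apply prod_eq_zero (mem_range.2 hj)
        field_simp
        ring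
      rw [z0]
      have hp := hpos j hj
      have hx : 0 < r j / w := div_pos hp hw0
      have := sgn (fun i => w * r i - r j / w) n j (by omega) (by
        intro i hi
        have h1 := hch i j hi hj
        have h2 : w * r i < r j / w := by
          rw [lt_div_iff₀ hw0]
          nlinarith
        linarith) (by
        intro i hi hin
        have hle : r j ≤ r i := by
          have := hchle (i - j) j (by omega)
          have e : j + (i - j) = i := by omega
          rwa [e] at this
        have h2 : r j / w < w * r i := by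
          rw [div_lt_iff₀ hw0]
          nlinarith [hpos i hin]
        linarith)
      have h3 := mul_pos hx this
      have e : (-1 : ℝ) ^ (j + 1) * (0 - r j / w * ∏ i ∈ range n, (w * r i - r j / w)) =
          r j / w * ((-1) ^ j * ∏ i ∈ range n, (w * r i - r j / w)) := by ring
      rw [e]
      exact h3
    -- left end points
    let L : ℕ → ℝ := fun j => if j = 0 then 0 else w * r (j - 1)
    have hL : ∀ j ≤ n, 0 ≤ L j ∧ 0 < (-1) ^ j * (Q w (n + 1)).eval (-(L j)) := by
      intro j hj
      by_cases h0 : j = 0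
      · subst h0
        have : L 0 = 0 := by simp [L]
        rw [this, hE]
        refine ⟨le_rfl, ?_⟩
        simp only [pow_zero, one_mul, mul_zero, sub_zero, zero_mul]
        exact prod_pos (fun i hi => hpos i (mem_range.1 hi))
      · have e : L j = w * r (j - 1) := by simp [L, h0]
        rw [e]
        have h1 := sB (j - 1) (by omega)
        have e2 : j - 1 + 1 = j := by omega
        rw [e2] at h1
        exact ⟨(mul_pos hw0 (hpos _ (by omega))).le, h1⟩
    have hU : ∀ j ≤ n, ∃ u, L j < u ∧ (j < n → u = r j / w) ∧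
        (-1) ^ j * (Q w (n + 1)).eval (-u) < 0 := by
      intro j hj
      by_cases hjn : j < n
      · refine ⟨r j / w, ?_, fun _ => rfl, ?_⟩
        · by_cases h0 : j = 0
          · have : L j = 0 := by simp [L, h0]
            rw [this]
            exact div_pos (hpos j hjn) hw0
          · have e : L j = w * r (j - 1) := by simp [L, h0]
            rw [e, lt_div_iff₀ hw0]
            have := hch (j - 1) j (by omega) hjn
            nlinarith
        · have := sA j hjn
          have e : (-1 : ℝ) ^ (j + 1) * (Q w (n + 1)).eval (-(r j / w)) =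
              -((-1) ^ j * (Q w (n + 1)).eval (-(r j / w))) := by ring
          rw [e] at this
          linarith
      · have hj' : j = n := by omega
        obtain ⟨x, hx1, hx2⟩ := large w (n + 1) (by omega) (L j)
        refine ⟨x, hx1, fun h => absurd h hjn, ?_⟩
        have e : (-1 : ℝ) ^ (n + 1) * (Q w (n + 1)).eval (-x) =
            -((-1) ^ j * (Q w (n + 1)).eval (-x)) := by
          rw [hj']
          ring
        rw [e] at hx2
        linarith
    have hZ : ∀ j ≤ n, ∃ ζ, L j < ζ ∧ (j < n → ζ < r j / w) ∧ (Q w (n + 1)).eval (-ζ) = 0 := by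
      intro j hj
      obtain ⟨u, hu1, hu2, hu3⟩ := hU j hj
      have hcont : ContinuousOn (fun x : ℝ => (-1) ^ j * (Q w (n + 1)).eval (-x)) (Set.Icc (L j) u) := by
        apply Continuous.continuousOn
        exact continuous_const.mul ((Q w (n + 1)).continuous.comp continuous_neg)
      have := intermediate_value_Ioo' hu1.le hcont
      obtain ⟨ζ, hζ, hζ0⟩ := this ⟨hu3, (hL j hj).2⟩
      refine ⟨ζ, hζ.1, fun h => ?_, ?_⟩
      · rw [← hu2 h]
        exact hζ.2
      · have hone : ((-1 : ℝ) ^ j) ≠ 0 := pow_ne_zero _ (by norm_num)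
        exact (mul_eq_zero.1 hζ0).resolve_left hone
    choose! ζ hζ1 hζ2 hζ3 using hZ
    have hzpos : ∀ j < n + 1, 0 < ζ j := by
      intro j hj
      exact lt_of_le_of_lt (hL j (by omega)).1 (hζ1 j (by omega))
    have hzsep : ∀ j, j + 1 < n + 1 → w ^ 2 * ζ j < ζ (j + 1) := by
      intro j hj
      have h1 := hζ2 j (by omega) (by omega)
      have h2 := hζ1 (j + 1) (by omega)
      have e : L (j + 1) = w * r j := by simp [L]
      rw [e] at h2
      rw [lt_div_iff₀ hw0] at h1
      nlinarith
    refine ⟨ζ, hzpos, hzsep, ?_⟩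
    have hprodm : (∏ j ∈ range (n + 1), (X + C (ζ j)) : ℝ[X]).Monic :=
      monic_prod_of_monic _ _ (fun j _ => monic_X_add_C _)
    have hprodd : (∏ j ∈ range (n + 1), (X + C (ζ j)) : ℝ[X]).degree = ((n + 1 : ℕ) : WithBot ℕ) := by
      rw [degree_prod]
      simp
    apply eq_of_degree_sub_lt_of_eval_index_eq (range (n + 1)) (v := fun j => - ζ j)
    · intro i hi j hj hij
      simp only [coe_range, Set.mem_Iio] at hi hj
      have hij' : ζ i = ζ j := by
        simp only at hij
        linarith
      rcases lt_trichotomy i j with h | h | h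
      · have := chain' ζ (w ^ 2) hw2 (n + 1) hzpos hzsep i j h hj
        nlinarith [hzpos i hi]
      · exact h
      · have := chain' ζ (w ^ 2) hw2 (n + 1) hzpos hzsep j i h hi
        nlinarith [hzpos j hj]
    · rw [card_range]
      have hd : (Q w (n + 1)).degree = (∏ j ∈ range (n + 1), (X + C (ζ j)) : ℝ[X]).degree := by
        rw [hprodd, Q_degree]
      have := degree_sub_lt_left hd (Q_monic w (n + 1)).ne_zero (by
        rw [(Q_monic w (n + 1)).leadingCoeff, hprodm.leadingCoeff])
      rw [Q_degree] at this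
      exact this
    · intro i hi
      have hi' := mem_range.1 hi
      rw [hζ3 i (by omega), eval_prod]
      symm
      apply prod_eq_zero hi
      simp

lemma complex_form (w : ℝ) (n : ℕ) (r : ℕ → ℝ) (h : Q w n = ∏ j ∈ range n, (X + C (r j))) (x : ℂ) :
    ∑ k ∈ range (n + 1), (n.choose k : ℂ) * x ^ k * (w : ℂ) ^ (k * (n - k)) =
      ∏ j ∈ range n, (x + (r j : ℂ)) := by
  have h2 := congrArg (fun p : ℝ[X] => p.eval₂ Complex.ofRealHom x) h
  simp only [Q] at h2
  rw [eval₂_finsetSum, eval₂_finsetProd] at h2
  simp only [eval₂_add, eval₂_mul, eval₂_C, eval₂_X, eval₂_pow] at h2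
  simp only [Complex.ofRealHom_eq_coe, Complex.ofReal_mul, Complex.ofReal_natCast,
    Complex.ofReal_pow] at h2
  rw [← h2]
  apply sum_congr rfl
  intro k _
  ring

/-- For every real `w` with `|w| > 1` and every `n`, the polynomial `P_n(x, w)` has `n` real nonzero
zeros, whose absolute values are separated by factors larger than `w ^ 2`. -/
theorem result (n : ℕ) (w : ℝ) (hw : 1 < |w|) :
    ∃ z : ℕ → ℝ, (∀ j < n, z j ≠ 0) ∧ (∀ j, j + 1 < n → |w| ^ 2 * |z j| < |z (j + 1)|) ∧
      ∀ x : ℂ, ∑ k ∈ range (n + 1), (n.choose k : ℂ) * x ^ k * (w : ℂ) ^ (k * (n - k)) =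
        ∏ j ∈ range n, (x - (z j : ℂ)) := by
  rcases le_or_gt 0 w with h0 | h0
  · rw [abs_of_nonneg h0] at hw ⊢
    obtain ⟨r, h1, h2, h3⟩ := real_case w hw n
    refine ⟨fun j => - r j, fun j hj => neg_ne_zero.2 (h1 j hj).ne', ?_, ?_⟩
    · intro j hj
      simp only [abs_neg]
      rw [abs_of_pos (h1 j (by omega)), abs_of_pos (h1 (j + 1) hj)]
      exact h2 j hj
    · intro x
      rw [complex_form w n r h3 x]
      apply prod_congr rfl
      intro j _
      push_cast
      ring
  · rw [abs_of_neg h0] at hw ⊢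
    set v : ℝ := -w with hv
    have hwv : w = -v := by rw [hv]; ring
    obtain ⟨r, h1, h2, h3⟩ := real_case v hw n
    rcases Nat.even_or_odd n with he | ho
    · refine ⟨r, fun j hj => (h1 j hj).ne', ?_, ?_⟩
      · intro j hj
        rw [abs_of_pos (h1 j (by omega)), abs_of_pos (h1 (j + 1) hj)]
        exact h2 j hj
      · intro x
        have h4 := complex_form v n r h3 (-x)
        have h5 : ∏ j ∈ range n, (-x + (r j : ℂ)) = ∏ j ∈ range n, (x - (r j : ℂ)) := by
          have : ∀ j ∈ range n, (-x + (r j : ℂ)) = (-1) * (x - (r j : ℂ)) := by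
            intro j _
            ring
          rw [prod_congr rfl this, prod_mul_distrib]
          simp [he.neg_one_pow]
        rw [← h5, ← h4]
        apply sum_congr rfl
        intro k hk
        have hk' : k ≤ n := by
          have := mem_range.1 hk
          omega
        rw [hwv]
        push_cast
        have e : (-(v : ℂ)) ^ (k * (n - k)) = (-1) ^ k * (v : ℂ) ^ (k * (n - k)) := by
          rw [neg_pow]
          congr 1
          rcases Nat.even_or_odd k with hk2 | hk2
          · rw [hk2.neg_one_pow, (hk2.mul_right _).neg_one_pow]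
          · have : Odd (n - k) := by
              rw [Nat.odd_sub hk']
              exact iff_of_false (by rwa [Nat.not_odd_iff_even]) (by rwa [Nat.not_even_iff_odd])
            rw [hk2.neg_one_pow, (hk2.mul this).neg_one_pow]
        rw [e, neg_pow x k]
        ring
    · refine ⟨fun j => - r j, fun j hj => neg_ne_zero.2 (h1 j hj).ne', ?_, ?_⟩
      · intro j hj
        simp only [abs_neg]
        rw [abs_of_pos (h1 j (by omega)), abs_of_pos (h1 (j + 1) hj)]
        exact h2 j hj
      · intro x
        have h4 := complex_form v n r h3 x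
        have h5 : ∏ j ∈ range n, (x - ((-r j : ℝ) : ℂ)) = ∏ j ∈ range n, (x + (r j : ℂ)) := by
          apply prod_congr rfl
          intro j _
          push_cast
          ring
        simp only
        rw [h5, ← h4]
        apply sum_congr rfl
        intro k hk
        have hk' : k ≤ n := by
          have := mem_range.1 hk
          omega
        rw [hwv]
        push_cast
        have hev : Even (k * (n - k)) := by
          rcases Nat.even_or_odd k with hk2 | hk2
          · exact hk2.mul_right _
          · have : Even (n - k) := by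
              rw [Nat.even_sub hk']
              exact iff_of_false (by rwa [Nat.not_even_iff_odd]) (by rwa [Nat.not_even_iff_odd])
            exact this.mul_left _
        rw [neg_pow, hev.neg_one_pow, one_mul]

end Pool.Agent.Results.MP_f76da2_an.RealParameter
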